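import Pool.Agent.Helper65.TU.Stmts

/-!
# TU, row MUL: coordinates and multipliers of an unconditional basis
-/

set_option autoImplicit false

open Set Filter Topology

namespace Pool.Agent.Helper65.TU
namespace S12

universe u v

section
variable {Γ : Type v} {X : Type u} [NormedAddCommGroup X] [NormedSpace ℝ X] {e : Γ → X} {C : ℝ}

/-- finite linear combinations -/
noncomputable def LC (e : Γ → X) : (Γ →₀ ℝ) →ₗ[ℝ] X := Finsupp.linearCombination ℝ e

/-- the pointwise product -/
noncomputable def mf (s : Γ → ℝ) (b : Γ →₀ ℝ) : Γ →₀ ℝ :=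
  Finsupp.onFinset b.support (fun g => s g * b g) (fun g hg => by
    rw [Finsupp.mem_support_iff]
    intro h
    apply hg
    rw [h, mul_zero])

theorem mf_apply (s : Γ → ℝ) (b : Γ →₀ ℝ) (g : Γ) : mf s b g = s g * b g := rfl

theorem LC_mf (s : Γ → ℝ) (b : Γ →₀ ℝ) :
    LC e (mf s b) = Finsupp.linearCombination ℝ (fun g => s g • e g) b := by
  unfold LC mf
  rw [Finsupp.linearCombination_apply, Finsupp.linearCombination_apply, Finsupp.onFinset_sum]
  · rw [Finsupp.sum]
    refine Finset.sum_congr rfl fun g _ => ?_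
    rw [smul_smul, mul_comm]
  · intro g
    exact zero_smul _ _

theorem LC_unc (h : UB e C) (a b : Γ →₀ ℝ) (hab : ∀ g, |a g| ≤ |b g|) :
    ‖LC e a‖ ≤ max C 1 * ‖LC e b‖ :=
  (h.unc a b hab).trans (mul_le_mul_of_nonneg_right (le_max_left _ _) (norm_nonneg _))

theorem LC_dense (h : UB e C) : DenseRange (LC e) := by
  have h1 : (Set.range (LC e)) = (Submodule.span ℝ (range e) : Set X) := by
    rw [← Finsupp.range_linearCombination]
    rfl
  intro x
  rw [h1, h.dense]
  trivial

theorem LC_single (g : Γ) (t : ℝ) : LC e (Finsupp.single g t) = t • e g :=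
  Finsupp.linearCombination_single ℝ t g

theorem mf_norm (h : UB e C) (s : Γ → ℝ) (hs : ∀ g, |s g| ≤ 1) (b : Γ →₀ ℝ) :
    ‖Finsupp.linearCombination ℝ (fun g => s g • e g) b‖ ≤ max C 1 * ‖LC e b‖ := by
  rw [← LC_mf]
  apply LC_unc h
  intro g
  rw [mf_apply, abs_mul]
  exact mul_le_of_le_one_left (abs_nonneg _) (hs g)

theorem co_norm (h : UB e C) (g : Γ) (b : Γ →₀ ℝ) :
    ‖(Finsupp.lapply g : (Γ →₀ ℝ) →ₗ[ℝ] ℝ) b‖ ≤ (max C 1 / ‖e g‖) * ‖LC e b‖ := by
  have h1 : ‖LC e (Finsupp.single g (b g))‖ ≤ max C 1 * ‖LC e b‖ := by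
    apply LC_unc h
    intro k
    by_cases hk : k = g
    · rw [hk, Finsupp.single_eq_same]
    · rw [Finsupp.single_eq_of_ne hk, abs_zero]
      exact abs_nonneg _
  rw [LC_single, norm_smul] at h1
  have h2 : 0 < ‖e g‖ := norm_pos_iff.2 (h.ne g)
  show ‖b g‖ ≤ _
  rw [div_mul_eq_mul_div, le_div_iff₀ h2]
  exact h1

variable [CompleteSpace X]

/-- multipliers -/
noncomputable def MT (e : Γ → X) (s : Γ → ℝ) : X →L[ℝ] X :=
  (Finsupp.linearCombination ℝ (fun g => s g • e g)).extendOfNorm (LC e)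

/-- coordinates -/
noncomputable def coo (e : Γ → X) (g : Γ) : X →L[ℝ] ℝ :=
  (Finsupp.lapply g : (Γ →₀ ℝ) →ₗ[ℝ] ℝ).extendOfNorm (LC e)

theorem MT_LC (h : UB e C) (s : Γ → ℝ) (hs : ∀ g, |s g| ≤ 1) (b : Γ →₀ ℝ) :
    MT e s (LC e b) = LC e (mf s b) := by
  rw [LC_mf]
  exact LinearMap.extendOfNorm_eq (LC_dense h) ⟨_, mf_norm h s hs⟩ b

theorem MT_norm (h : UB e C) (s : Γ → ℝ) (hs : ∀ g, |s g| ≤ 1) (x : X) :
    ‖MT e s x‖ ≤ max C 1 * ‖x‖ :=
  LinearMap.norm_extendOfNorm_apply_le (LC_dense h) _ (mf_norm h s hs) x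

theorem coo_LC (h : UB e C) (g : Γ) (b : Γ →₀ ℝ) : coo e g (LC e b) = b g :=
  LinearMap.extendOfNorm_eq (LC_dense h) ⟨_, co_norm h g⟩ b

theorem coo_MT (h : UB e C) (s : Γ → ℝ) (hs : ∀ g, |s g| ≤ 1) (g : Γ) (x : X) :
    coo e g (MT e s x) = s g * coo e g x := by
  refine (LC_dense h).induction_on x (isClosed_eq (by fun_prop) (by fun_prop)) ?_
  intro b
  rw [MT_LC h s hs, coo_LC h, coo_LC h, mf_apply]

open Classical in
theorem MT_fin (h : UB e C) (F : Finset Γ) (x : X) :
    MT e (fun g => if g ∈ F then 1 else 0) x = ∑ g ∈ F, coo e g x • e g := by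
  have hs : ∀ g, |(if g ∈ F then (1:ℝ) else 0)| ≤ 1 := by
    intro g
    split_ifs <;> simp
  refine (LC_dense h).induction_on x (isClosed_eq (by fun_prop) (by fun_prop)) ?_
  intro b
  rw [MT_LC h _ hs, LC_mf, Finsupp.linearCombination_apply]
  simp only [coo_LC h]
  rw [Finsupp.sum]
  have e1 : ∀ g, b g • (if g ∈ F then (1:ℝ) else 0) • e g = if g ∈ F then b g • e g else 0 := by
    intro g
    split_ifs <;> simp
  simp only [e1]
  rw [← Finset.sum_filter]
  apply Finset.sum_subset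
  · intro g hg
    exact (Finset.mem_filter.1 hg).2
  · intro g hg hg'
    have : b g = 0 := by
      by_contra hb
      exact hg' (Finset.mem_filter.2 ⟨Finsupp.mem_support_iff.2 hb, hg⟩)
    rw [this, zero_smul]

theorem coo_sep (h : UB e C) (x : X) (hx : ∀ g, coo e g x = 0) : x = 0 := by
  classical
  by_contra hne
  have hpos : 0 < ‖x‖ := norm_pos_iff.2 hne
  have hC : (1:ℝ) ≤ max C 1 := le_max_right _ _
  obtain ⟨b, hb⟩ := (LC_dense h).exists_dist_lt x (ε := ‖x‖ / (2 * (1 + max C 1)))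
    (by positivity)
  rw [dist_eq_norm] at hb
  have hs : ∀ g, |(if g ∈ b.support then (1:ℝ) else 0)| ≤ 1 := by
    intro g
    split_ifs <;> simp
  have e1 : MT e (fun g => if g ∈ b.support then 1 else 0) x = 0 := by
    rw [MT_fin h]
    apply Finset.sum_eq_zero
    intro g _
    rw [hx, zero_smul]
  have e2 : MT e (fun g => if g ∈ b.support then 1 else 0) (LC e b) = LC e b := by
    rw [MT_LC h _ hs]
    congr 1
    ext g
    rw [mf_apply]
    by_cases hg : g ∈ b.support
    · rw [if_pos hg, one_mul]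
    · rw [if_neg hg, zero_mul, Finsupp.notMem_support_iff.1 hg]
  have e3 := MT_norm h (fun g => if g ∈ b.support then (1:ℝ) else 0) hs (x - LC e b)
  rw [map_sub, e1, e2, zero_sub, norm_neg] at e3
  have e4 : ‖x‖ ≤ ‖x - LC e b‖ + ‖LC e b‖ := by
    have := norm_add_le (x - LC e b) (LC e b)
    rwa [sub_add_cancel] at this
  have e5 : (1 + max C 1) * ‖x - LC e b‖ < ‖x‖ / 2 := by
    have h1 : 0 < 1 + max C 1 := by linarith
    have h2 := mul_lt_mul_of_pos_left hb h1
    have h3 : (1 + max C 1) * (‖x‖ / (2 * (1 + max C 1))) = ‖x‖ / 2 := by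
      field_simp
    linarith
  nlinarith

end

theorem mul' {Γ : Type v} {X : Type u} [NormedAddCommGroup X] [NormedSpace ℝ X]
    [CompleteSpace X] (e : Γ → X) (C : ℝ) (h : UB e C) : CS e (coo e) (max C 1) where
  pos := lt_of_lt_of_le one_pos (le_max_right _ _)
  bio := by
    classical
    intro g k
    have h1 : e k = LC e (Finsupp.single k 1) := by rw [LC_single, one_smul]
    rw [h1, coo_LC h, Finsupp.single_apply]
    by_cases hg : g = k
    · rw [if_pos hg, if_pos hg.symm]
    · rw [if_neg hg, if_neg (fun h => hg h.symm)]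
  sep := coo_sep h
  mul := fun s hs => ⟨MT e s, fun x g => coo_MT h s hs g x, fun x => MT_norm h s hs x⟩
  fin := by
    intro x ε hε
    have hC : (0:ℝ) < max C 1 := lt_of_lt_of_le one_pos (le_max_right _ _)
    obtain ⟨b, hb⟩ := (LC_dense h).exists_dist_lt x (ε := ε / max C 1) (by positivity)
    rw [dist_eq_norm] at hb
    refine ⟨b.support, fun s hs hF y hy => ?_⟩
    have e1 : y = MT e s x := by
      apply sub_eq_zero.1
      apply coo_sep h
      intro g
      rw [map_sub, coo_MT h s hs, hy, sub_self]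
    have e2 : MT e s (LC e b) = 0 := by
      rw [MT_LC h s hs]
      have : mf s b = 0 := by
        ext g
        rw [mf_apply]
        by_cases hg : g ∈ b.support
        · rw [hF g hg, zero_mul, Finsupp.zero_apply]
        · rw [Finsupp.notMem_support_iff.1 hg, mul_zero, Finsupp.zero_apply]
      rw [this, map_zero]
    have e3 := MT_norm h s hs (x - LC e b)
    rw [map_sub, e2, sub_zero, ← e1] at e3
    have e4 : max C 1 * ‖x - LC e b‖ < ε := by
      have h2 := mul_lt_mul_of_pos_left hb hC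
      have h3 : max C 1 * (ε / max C 1) = ε := by field_simp
      linarith
    linarith

end S12

universe u v

theorem st_MUL : ST_MUL.{u, v} := by
  intro Γ X _ _ _ e C h
  exact ⟨S12.coo e, max C 1, S12.mul' e C h⟩

end Pool.Agent.Helper65.TU
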